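import Pool.Agent.Lib.Sm.J8

/-!
HEIGHTS (MP_48b749_nt), block J+: the definition of `TypH` (typical `D`, joint genericity of the Selmer
group with the inhomogeneous solutions `w`, `cond w P = deg P • (c 0) P`), and its deduction from the
absence of non-generic tuples in a family of primes.
-/

set_option autoImplicit false

open Polynomial Pool.Agent.BSDP.R

namespace Pool.Agent.SmH

open Pool.Agent.Sm Pool.Agent.Sm.BJ

/-- `D` is typical in the strong sense: typical, and
* for independent `c_0, …, c_r` in the Selmer group and every code `w` with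
  `cond w P = deg P • (c_0)_P` at all `P ∣ D` the tuple `(c_0, …, c_r, w)` takes every value at at least
  `kk` primes of large degree divisible by `2 ^ C`;
* independent tuples in the Selmer group take every value at at least `kk` large primes of odd
  degree. -/
structure TypH {k : Type} [Field k] (d : TwData k) (D : k[X]) (R kk C N0 : ℕ) : Prop where
  typ : Typ d D R kk C N0
  genericH : ∀ (r : ℕ) (c : Fin (r + 1) → Code d D) (w : Code d D), (∀ i, c i ∈ Selp d D) →
    IndepMod d D c → (∀ P : PD D, cond d D w P = (P.1.natDegree : ZMod 2) • (c 0).2.2 P) →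
    ∀ (v : Fin (r + 1) → V1) (v' : V1), kk ≤ Nat.card {P : PD D // N0 ≤ P.1.natDegree ∧
      2 ^ C ∣ P.1.natDegree ∧ (∀ i, (c i).2.2 P = v i) ∧ w.2.2 P = v'}
  genericOdd : ∀ (r : ℕ) (c : Fin r → Code d D), (∀ i, c i ∈ Selp d D) → IndepMod d D c →
    ∀ v : Fin r → V1, kk ≤ Nat.card {P : PD D // N0 ≤ P.1.natDegree ∧ Odd P.1.natDegree ∧
      ∀ i, (c i).2.2 P = v i}

/-- the right sides: `0` for the first `r + 1` codes, `deg • (c 0)` for the last one -/
def rhsH {h r m : ℕ} {S : Type} (dg : Fin m → ℕ) (c : Fin (r + 2) → CodeF h (S ⊕ Fin m))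
    (j : Fin m) (i : Fin (r + 2)) : V1 :=
  if i = Fin.last (r + 1) then (dg j : ZMod 2) • xF c j 0 else 0

/-- a non-generic independent tuple `(c_0, …, c_r, w)` -/
def BadTH {k : Type} [Field k] (d : TwData k) {S : Type} [Fintype S] {m : ℕ} (ps : S → k[X])
    (P : Fin m → k[X]) (W : Finset (Fin m)) (kk r : ℕ) : Prop :=
  ∃ c : Fin (r + 2) → CodeF d.h (S ⊕ Fin m),
    (∀ j i, condF d (Sum.elim ps P) (c i) (Sum.inr j) =
      rhsH (fun j => (P j).natDegree) c j i) ∧
    (¬ Dep (TF d S) (gF c) (xF c) ∧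
      ∃ v : Fin (r + 2) → V1, Nat.card {j : Fin m // j ∈ W ∧ xF c j = v} < kk)

section
variable {k : Type} [Field k] (d : TwData k) (D : k[X])

theorem cond_add (a b : Code d D) (P : PD D) :
    cond d D (a + b) P = cond d D a P + cond d D b P := by
  simp only [Sm.cond, Prod.fst_add, Prod.snd_add, Pi.add_apply, map_add]
  have e1 : ∀ (s : ZMod 2) (x y z w : V1),
      s • (x + y + (z + w)) = s • (x + z) + s • (y + w) := by
    intro s x y z w
    rw [← smul_add]
    congr 1
    abel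
  simp only [e1, Finset.sum_add_distrib]
  abel

theorem cond_smul (s : ZMod 2) (a : Code d D) (P : PD D) :
    cond d D (s • a) P = s • cond d D a P := by
  simp only [Sm.cond, Prod.smul_fst, Prod.smul_snd, Pi.smul_apply, map_smul, smul_add,
    Finset.smul_sum, smul_comm s]

theorem cond_zero (P : PD D) : cond d D 0 P = 0 := by
  have h := cond_smul d D 0 0 P
  rw [zero_smul, zero_smul] at h
  exact h

theorem cond_sum {ι : Type} (s : Finset ι) (a : ι → Code d D) (P : PD D) :
    cond d D (∑ i ∈ s, a i) P = ∑ i ∈ s, cond d D (a i) P := by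
  classical
  induction s using Finset.induction_on with
  | empty => exact cond_zero d D P
  | insert i s hi ih => rw [Finset.sum_insert hi, Finset.sum_insert hi, cond_add, ih]

theorem cond_kap (w : V1) (P : PD D) : cond d D (kap d D w) P = 0 := kap_mem d D w P

variable [Finite k]

theorem cond_const (h2 : (2 : k) ≠ 0) (hD : D ≠ 0) {x : Code d D} (hx : ∀ Q, x.2.2 Q = 0)
    (hg : ∀ μ, x.2.1 μ = 0) (P : PD D) : cond d D x P = (P.1.natDegree : ZMod 2) • x.1 := by
  have hP := (mem_primesOf hD).1 P.2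
  unfold Sm.cond
  simp only [hx, hg, map_zero, add_zero, smul_zero, Finset.sum_const_zero]
  rw [leg_C_nonsq h2 hP.2.1 hP.1 d.u_nonsq]

variable {d D}

/-- transport of a code to a family -/
def trF {S : Type} {m : ℕ} (e : PD D ≃ S ⊕ Fin m) (c : Code d D) : CodeF d.h (S ⊕ Fin m) :=
  (c.1, c.2.1, fun a => c.2.2 (e.symm a))

omit [Finite k] in
theorem condF_trF {S : Type} [Fintype S] {m : ℕ} {ps : S → k[X]} {P : Fin m → k[X]}
    (e : PD D ≃ S ⊕ Fin m) (he : ∀ a, (e.symm a).1 = Sum.elim ps P a) (c : Code d D)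
    (a : S ⊕ Fin m) : condF d (Sum.elim ps P) (trF e c) a = cond d D c (e.symm a) := by
  unfold condF Sm.cond
  have e1 : ∀ b, Sum.elim ps P b = (e.symm b).1 := fun b => (he b).symm
  rw [e1 a]
  congr 1
  exact Fintype.sum_equiv e.symm _ _ (fun b => by rw [e1 b]; rfl)

theorem card_places {S : Type} [Fintype S] {m : ℕ} {ps : S → k[X]} {P : Fin m → k[X]}
    (e : PD D ≃ S ⊕ Fin m) (he : ∀ a, (e.symm a).1 = Sum.elim ps P a) {N0 : ℕ}
    (hN0 : ∀ j, N0 ≤ (P j).natDegree) (W : Finset (Fin m)) (Pd : ℕ → Prop)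
    (hW : ∀ j ∈ W, Pd (P j).natDegree) {r : ℕ} (c : Fin r → Code d D) (v : Fin r → V1) :
    Nat.card {j : Fin m // j ∈ W ∧ xF (fun i => trF e (c i)) j = v} ≤
      Nat.card {P : PD D // N0 ≤ P.1.natDegree ∧ Pd P.1.natDegree ∧
        ∀ i, (c i).2.2 P = v i} := by
  have hfin := finite_PD D
  have hv : ∀ j : Fin m, (e.symm (Sum.inr j)).1 = P j := fun j => he (Sum.inr j)
  let F : {j : Fin m // j ∈ W ∧ xF (fun i => trF e (c i)) j = v} →
      {P : PD D // N0 ≤ P.1.natDegree ∧ Pd P.1.natDegree ∧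
      ∀ i, (c i).2.2 P = v i} := fun j => ⟨e.symm (Sum.inr j.1), by
        rw [hv]; exact hN0 j.1, by rw [hv]; exact hW j.1 j.2.1,
        fun i => congrFun j.2.2 i⟩
  apply Nat.card_le_card_of_injective F
  intro j j' h
  have h4 : e.symm (Sum.inr j.1) = e.symm (Sum.inr j'.1) := congrArg Subtype.val h
  exact Subtype.ext (Sum.inr.inj (e.symm.injective h4))

omit [Finite k] in
/-- the Dep relation read in `Code d D`: the combination plus `kap t` has no prime codes and no
codes at the bad primes -/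
theorem dep_const {S : Type} {m : ℕ} (e : PD D ≃ S ⊕ Fin m) {r : ℕ} (c : Fin r → Code d D)
    (a : Fin r → ZMod 2) (t : V1)
    (hx : ∀ j, ∑ i, a i • xF (fun i => trF e (c i)) j i = t)
    (hg : ∀ f, ∑ i, a i • gF (fun i => trF e (c i)) f i = TF d S f t) :
    (∀ Q, (∑ i, a i • c i + kap d D t).2.2 Q = 0) ∧
      ∀ μ, (∑ i, a i • c i + kap d D t).2.1 μ = 0 := by
  have hfst : ∀ (f : Fin r → Code d D), (∑ i, f i).2.2 = ∑ i, (f i).2.2 := by
    intro f
    rw [Prod.snd_sum, Prod.snd_sum]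
  have hfst' : ∀ (f : Fin r → Code d D), (∑ i, f i).2.1 = ∑ i, (f i).2.1 := by
    intro f
    rw [Prod.snd_sum, Prod.fst_sum]
  constructor
  · intro Q
    have hsum : ∑ i, a i • (c i).2.2 Q = t := by
      obtain ⟨b, rfl⟩ := e.symm.surjective Q
      rcases b with s | j
      · have h4 := hg (Sum.inl s)
        exact h4
      · exact hx j
    have h4 : (∑ i, a i • c i + kap d D t).2.2 Q = ∑ i, a i • (c i).2.2 Q + t := by
      change (∑ i, a i • c i).2.2 Q + t = _
      rw [hfst, Finset.sum_apply]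
      rfl
    rw [h4, hsum]
    exact add_self_V1 _
  · intro μ
    have hsum : ∑ i, a i • (c i).2.1 μ = d.T μ t := hg (Sum.inr μ)
    have h4 : (∑ i, a i • c i + kap d D t).2.1 μ = ∑ i, a i • (c i).2.1 μ + d.T μ t := by
      change (∑ i, a i • c i).2.1 μ + d.T μ t = _
      rw [hfst', Finset.sum_apply]
      rfl
    rw [h4, hsum]
    exact add_self_V1 _

omit [Finite k] in
theorem eq_of_add_code (x y : Code d D) (hxy : x + y = 0) : x = y := by
  have e1 := (Prod.mk.inj hxy)
  have e2 := Prod.mk.inj e1.2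
  refine Prod.ext (eq_of_add_V1 _ _ e1.1) (Prod.ext ?_ ?_)
  · funext μ
    exact eq_of_add_V1 _ _ (congrFun e2.1 μ)
  · funext Q
    exact eq_of_add_V1 _ _ (congrFun e2.2 Q)

/-- an independent tuple in the Selmer group is not `Dep` -/
theorem not_dep (h2 : (2 : k) ≠ 0) (hD : D ≠ 0) (hodd : ∃ P : PD D, Odd P.1.natDegree)
    {S : Type} {m : ℕ} (e : PD D ≃ S ⊕ Fin m) {r : ℕ} (c : Fin r → Code d D)
    (hc : ∀ i, c i ∈ Selp d D) (hI : IndepMod d D c) :
    ¬ Dep (TF d S) (gF fun i => trF e (c i)) (xF fun i => trF e (c i)) := by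
  rintro ⟨a, ha0, t, hx, hg⟩
  apply ha0
  apply hI a
  refine ⟨t, ?_⟩
  obtain ⟨hx0, hg0⟩ := dep_const e c a t hx hg
  set c0 : Code d D := ∑ i, a i • c i + kap d D t with hc0
  have hc0mem : c0 ∈ Selp d D := by
    apply Submodule.add_mem
    · exact Submodule.sum_mem _ fun i _ => Submodule.smul_mem _ _ (hc i)
    · exact kap_mem d D t
  obtain ⟨Q, hQ⟩ := hodd
  have h4 : cond d D c0 Q = 0 := hc0mem Q
  rw [cond_const d D h2 hD hx0 hg0] at h4
  have h5 : ((Q.1.natDegree : ℕ) : ZMod 2) = 1 := by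
    rw [ZMod.natCast_eq_one_iff_odd]
    exact hQ
  rw [h5, one_smul] at h4
  have h6 : c0 = 0 := by
    refine Prod.ext h4 (Prod.ext ?_ ?_)
    · funext μ
      exact hg0 μ
    · funext Q
      exact hx0 Q
  exact eq_of_add_code _ _ h6

/-- the number of independent elements is bounded -/
theorem indep_le {R r : ℕ} (hT1 : Nat.card (Selp d D) ≤ 2 ^ R) (c : Fin r → Code d D)
    (hc : ∀ i, c i ∈ Selp d D) (hI : IndepMod d D c) : r ≤ R := by
  have hfin := finite_PD D
  have h4 : Nat.card (Fin r → ZMod 2) ≤ Nat.card (Selp d D) := by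
    let F : (Fin r → ZMod 2) → Selp d D := fun a =>
      ⟨∑ i, a i • c i, Submodule.sum_mem _ fun i _ => Submodule.smul_mem _ _ (hc i)⟩
    have hfinS : Finite (Selp d D) := inferInstance
    apply Nat.card_le_card_of_injective F
    intro a b hab
    have h5 : ∑ i, a i • c i = ∑ i, b i • c i := congrArg Subtype.val hab
    have h6 : a - b = 0 := by
      apply hI
      refine ⟨0, ?_⟩
      have h7 : kap d D 0 = 0 := by
        unfold kap
        simp only [map_zero]
        rfl
      rw [h7]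
      simp only [Pi.sub_apply, sub_smul, Finset.sum_sub_distrib]
      rw [h5, sub_self]
    exact sub_eq_zero.1 h6
  have h5 : Nat.card (Fin r → ZMod 2) = 2 ^ r := by
    rw [Nat.card_fun, Nat.card_eq_fintype_card, Nat.card_eq_fintype_card, ZMod.card,
      Fintype.card_fin]
  rw [h5] at h4
  exact (Nat.pow_le_pow_iff_right (by norm_num)).1 (h4.trans hT1)

/-- genericity of the Selmer group at a set `W` of primes -/
theorem gen_of_family (h2 : (2 : k) ≠ 0) (hD : D ≠ 0) {S : Type}
    [Fintype S] {m : ℕ} {ps : S → k[X]} {P : Fin m → k[X]} (e : PD D ≃ S ⊕ Fin m)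
    (he : ∀ a, (e.symm a).1 = Sum.elim ps P a) {R kk N0 : ℕ}
    (hN0 : ∀ j, N0 ≤ (P j).natDegree)
    (W : Finset (Fin m)) (Pd : ℕ → Prop) (hW : ∀ j ∈ W, Pd (P j).natDegree) (hWk : kk ≤ W.card)
    (hodd : ∃ P : PD D, Odd P.1.natDegree) (hT1 : Nat.card (Selp d D) ≤ 2 ^ R)
    (h3 : ∀ r, 1 ≤ r → r ≤ R → ¬ BadT2 d ps P W kk r) (r : ℕ) (c : Fin r → Code d D)
    (hc : ∀ i, c i ∈ Selp d D) (hI : IndepMod d D c) (v : Fin r → V1) :
    kk ≤ Nat.card {P : PD D // N0 ≤ P.1.natDegree ∧ Pd P.1.natDegree ∧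
      ∀ i, (c i).2.2 P = v i} := by
  classical
  by_contra hlt
  rw [not_le] at hlt
  have hWsub := card_places e he hN0 W Pd hW c
  rcases Nat.eq_zero_or_pos r with h0 | hr
  · subst h0
    have h4 := hWsub v
    have h5 : Nat.card {j : Fin m // j ∈ W ∧ xF (fun i => trF e (c i)) j = v} = W.card := by
      rw [Nat.card_eq_fintype_card, Fintype.card_subtype]
      congr 1
      ext j
      simp only [Finset.mem_filter, Finset.mem_univ, true_and, and_iff_left_iff_imp]
      intro _
      exact Subsingleton.elim _ _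
    omega
  · apply h3 r hr (indep_le hT1 c hc hI)
    refine ⟨fun i => trF e (c i), ?_, not_dep h2 hD hodd e c hc hI, v, (hWsub v).trans_lt hlt⟩
    intro j i
    rw [condF_trF e he]
    exact hc i _

/-- `(c_0, …, c_r, w)` with an inhomogeneous solution `w` is not `Dep` -/
theorem not_depH (h2 : (2 : k) ≠ 0) (hD : D ≠ 0) (hodd : ∃ P : PD D, Odd P.1.natDegree)
    {S : Type} {m : ℕ} (e : PD D ≃ S ⊕ Fin m) {r : ℕ} (c : Fin (r + 1) → Code d D)
    (hc : ∀ i, c i ∈ Selp d D) (hI : IndepMod d D c) (w : Code d D)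
    (hw : ∀ P : PD D, cond d D w P = (P.1.natDegree : ZMod 2) • (c 0).2.2 P)
    (hgen : ∀ v : V1, ∃ P : PD D, Odd P.1.natDegree ∧ (c 0).2.2 P = v) :
    ¬ Dep (TF d S) (gF fun i => trF e (Fin.snoc (α := fun _ => Code d D) c w i))
      (xF fun i => trF e (Fin.snoc (α := fun _ => Code d D) c w i)) := by
  rintro ⟨a, ha0, t, hx, hg⟩
  obtain ⟨hx0, hg0⟩ := dep_const e _ a t hx hg
  have hsnoc : ∑ i, a i • Fin.snoc (α := fun _ => Code d D) c w i =
      ∑ i : Fin (r + 1), a i.castSucc • c i + a (Fin.last (r + 1)) • w := by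
    rw [Fin.sum_univ_castSucc]
    simp only [Fin.snoc_castSucc, Fin.snoc_last]
  rw [hsnoc] at hx0 hg0
  have hcases : ∀ s : ZMod 2, s = 0 ∨ s = 1 := by decide
  rcases hcases (a (Fin.last (r + 1))) with h0 | h1
  · -- the combination does not contain `w`
    rw [h0, zero_smul, add_zero] at hx0 hg0
    set c0 : Code d D := ∑ i : Fin (r + 1), a i.castSucc • c i + kap d D t with hc0
    have hc0mem : c0 ∈ Selp d D := by
      apply Submodule.add_mem
      · exact Submodule.sum_mem _ fun i _ => Submodule.smul_mem _ _ (hc i)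
      · exact kap_mem d D t
    obtain ⟨Q, hQ⟩ := hodd
    have h4 : cond d D c0 Q = 0 := hc0mem Q
    rw [cond_const d D h2 hD hx0 hg0] at h4
    have h5 : ((Q.1.natDegree : ℕ) : ZMod 2) = 1 := by
      rw [ZMod.natCast_eq_one_iff_odd]
      exact hQ
    rw [h5, one_smul] at h4
    have h6 : c0 = 0 := by
      refine Prod.ext h4 (Prod.ext ?_ ?_)
      · funext μ
        exact hg0 μ
      · funext Q
        exact hx0 Q
    have h7 := hI (fun i => a i.castSucc) ⟨t, eq_of_add_code _ _ h6⟩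
    apply ha0
    funext i
    refine Fin.lastCases h0 (fun j => ?_) i
    exact congrFun h7 j
  · -- the combination contains `w`
    rw [h1, one_smul] at hx0 hg0
    set c0 : Code d D := ∑ i : Fin (r + 1), a i.castSucc • c i + w + kap d D t with hc0
    have hcond : ∀ Q : PD D, cond d D c0 Q = (Q.1.natDegree : ZMod 2) • (c 0).2.2 Q := by
      intro Q
      rw [hc0, cond_add, cond_add, cond_kap, cond_sum, add_zero, hw]
      have h8 : ∑ i : Fin (r + 1), cond d D (a i.castSucc • c i) Q = 0 := by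
        apply Finset.sum_eq_zero
        intro i _
        rw [cond_smul]
        have h9 : cond d D (c i) Q = 0 := hc i Q
        rw [h9, smul_zero]
      rw [h8, zero_add]
    have hne : ∃ v : V1, v ≠ c0.1 := by
      have : ∀ x : V1, ∃ v : V1, v ≠ x := by decide
      exact this _
    obtain ⟨v, hv⟩ := hne
    obtain ⟨Q, hQ, hQv⟩ := hgen v
    have h4 := hcond Q
    rw [cond_const d D h2 hD hx0 hg0] at h4
    have h5 : ((Q.1.natDegree : ℕ) : ZMod 2) = 1 := by
      rw [ZMod.natCast_eq_one_iff_odd]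
      exact hQ
    rw [h5, one_smul, one_smul, hQv] at h4
    exact hv h4.symm

/-- `TypH` from a family of primes -/
theorem typH_of_family (h2 : (2 : k) ≠ 0) (hD : D ≠ 0) {S : Type}
    [Fintype S] {m : ℕ} {ps : S → k[X]} {P : Fin m → k[X]} (e : PD D ≃ S ⊕ Fin m)
    (he : ∀ a, (e.symm a).1 = Sum.elim ps P a) {R kk C N0 : ℕ} (hkk : 1 ≤ kk)
    (hN0 : ∀ j, N0 ≤ (P j).natDegree)
    (W : Finset (Fin m)) (hW : ∀ j ∈ W, 2 ^ C ∣ (P j).natDegree)
    (W' : Finset (Fin m)) (hW' : ∀ j ∈ W', Odd (P j).natDegree) (hWk' : kk ≤ W'.card)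
    (htyp : Typ d D R kk C N0)
    (h3 : ∀ r, 1 ≤ r → r ≤ R → ¬ BadT2 d ps P W' kk r)
    (h4 : ∀ r, r + 1 ≤ R → ¬ BadTH d ps P W kk r) :
    TypH d D R kk C N0 := by
  classical
  have hfin := finite_PD D
  have hgenOdd : ∀ (r : ℕ) (c : Fin r → Code d D), (∀ i, c i ∈ Selp d D) → IndepMod d D c →
      ∀ v : Fin r → V1, kk ≤ Nat.card {P : PD D // N0 ≤ P.1.natDegree ∧ Odd P.1.natDegree ∧
        ∀ i, (c i).2.2 P = v i} :=
    fun r c hc hI v => gen_of_family h2 hD e he hN0 W' Odd hW' hWk' htyp.odd htyp.small h3 r c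
      hc hI v
  refine ⟨htyp, ?_, hgenOdd⟩
  intro r c w hc hI hw v v'
  by_contra hlt
  rw [not_le] at hlt
  have hr : r + 1 ≤ R := indep_le htyp.small c hc hI
  -- the first element takes every value at odd primes
  have hgen : ∀ v : V1, ∃ P : PD D, Odd P.1.natDegree ∧ (c 0).2.2 P = v := by
    intro v
    have h5 : IndepMod d D (fun _ : Fin 1 => c 0) := by
      intro a ha
      obtain ⟨t, ht⟩ := ha
      rw [Fin.sum_univ_one] at ht
      have h6 := hI (Pi.single 0 (a 0)) ⟨t, by
        rw [← ht, Finset.sum_eq_single 0]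
        · rw [Pi.single_eq_same]
        · intro i _ hi
          rw [Pi.single_eq_of_ne hi, zero_smul]
        · intro h
          exact absurd (Finset.mem_univ _) h⟩
      have h7 := congrFun h6 0
      rw [Pi.single_eq_same] at h7
      funext i
      have hi : i = 0 := Subsingleton.elim _ _
      rw [hi]
      exact h7
    have h6 := hgenOdd 1 (fun _ => c 0) (fun _ => hc 0) h5 (fun _ => v)
    have h7 : 0 < Nat.card {P : PD D // N0 ≤ P.1.natDegree ∧ Odd P.1.natDegree ∧
        ∀ _ : Fin 1, (c 0).2.2 P = v} := lt_of_lt_of_le (by omega) h6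
    obtain ⟨⟨Q, _, hQ, hQv⟩⟩ := (Nat.card_pos_iff.1 h7).1
    exact ⟨Q, hQ, hQv 0⟩
  apply h4 r hr
  refine ⟨fun i => trF e (Fin.snoc (α := fun _ => Code d D) c w i), ?_,
    not_depH h2 hD htyp.odd e c hc hI w hw hgen, Fin.snoc (α := fun _ => V1) v v', ?_⟩
  · intro j i
    rw [condF_trF e he]
    unfold rhsH
    have hv : (e.symm (Sum.inr j)).1 = P j := he (Sum.inr j)
    refine Fin.lastCases ?_ (fun i => ?_) i
    · rw [if_pos rfl, Fin.snoc_last, hw, hv]
      congr 1
    · rw [if_neg (Fin.castSucc_lt_last i).ne, Fin.snoc_castSucc]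
      exact hc i _
  · refine lt_of_le_of_lt ((card_places e he hN0 W (fun n => 2 ^ C ∣ n) hW _ _).trans ?_) hlt
    apply card_mono
    rintro Q ⟨hQ1, hQ2, hQ3⟩
    refine ⟨hQ1, hQ2, fun i => ?_, ?_⟩
    · have h5 := hQ3 i.castSucc
      rwa [Fin.snoc_castSucc, Fin.snoc_castSucc] at h5
    · have h5 := hQ3 (Fin.last (r + 1))
      rwa [Fin.snoc_last, Fin.snoc_last] at h5

end

end Pool.Agent.SmH
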