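import Pool.Agent.Lib.Sm.J7

/-!
HEIGHTS (MP_48b749_nt), block J+: the grid estimates of block J with right sides. `grid_LR` bounds the
number of families of primes for which the conditions at the large primes have prescribed right sides
(any function of the codes and the degrees); `T2gridR` bounds the number of pairs (family, non-generic
`r`-tuple) for these inhomogeneous systems.
-/

set_option autoImplicit false

open Polynomial Pool.Agent.BSDP.R

namespace Pool.Agent.SmH

open Pool.Agent.Sm Pool.Agent.Sm.BJ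

private theorem eq_add_of_add_eq (a b c : V1) (h : a + b = c) : a = b + c := by
  revert a b c; decide

section
variable {k : Type} [Field k] [Finite k]

theorem grid_LR (h2 : (2 : k) ≠ 0) (d : TwData k) {r m : ℕ} {S : Type} [Fintype S]
    {ps : S → k[X]} {dg : Fin m → ℕ} (hinj : Function.Injective dg)
    (hU : NearU (Sum.elim ps d.ell) dg) (c : Fin r → CodeF d.h (S ⊕ Fin m))
    (rhs : Fin m → Fin r → V1) :
    Nat.card {P : Grid k dg //
        ∀ j i, condF d (Sum.elim ps fun j => (P j).1) (c i) (Sum.inr j) = rhs j i} * (4 ^ r) ^ m ≤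
      2 * Nat.card (Grid k dg) * Nat.card {l : Fin m → Fin r → V1 //
        (∀ i j, Unl (xF c i, l i) (xF c j, l j)) ∧
        ∀ f j, pr (l j) (fun i => gF c f i + TF d S f (xF c j i)) = 0} := by
  classical
  set Q := Pat (S ⊕ Fin d.h) m with hQ
  have hQ0 : 0 < Nat.card Q := Nat.card_pos
  set Φ := PhiL (TF d S) (gF c) (xF c) (m := m) with hΦ
  set KR : Fin m → Fin r → V1 := fun j i => KL d dg c j i + rhs j i with hKR
  have h1 : Nat.card {P : Grid k dg //
        ∀ j i, condF d (Sum.elim ps fun j => (P j).1) (c i) (Sum.inr j) = rhs j i} ≤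
      Nat.card {P : Grid k dg // Φ (pat (Sum.elim ps d.ell) fun j => (P j).1) = KR} := by
    apply card_mono
    intro P hP
    funext j i
    have h3 := hP j i
    have hPinj : Function.Injective fun j => (P j).1 := by
      intro a b hab
      apply hinj
      have ha := (P a).2.2.2
      have hb := (P b).2.2.2
      rw [← ha, ← hb]
      exact congrArg natDegree hab
    rw [condF_inr h2 d ps (fun j => (P j).2.1) (fun j => (P j).2.2.1) hPinj dg
      (fun j => (P j).2.2.2) c j i] at h3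
    exact eq_add_of_add_eq _ _ _ h3
  have h3 := push_count (G := Grid k dg) (Q := Q)
    (fun P => pat (Sum.elim ps d.ell) fun j => (P j).1) _ hU (fun ξ => Φ ξ = KR)
  have h4 := dual_count Φ (KR)
  rw [Fintype.card_fin] at h4
  have h5 : Nat.card {l : Fin m → Fin r → V1 // ∀ ξ, ∑ i, pr (l i) (Φ ξ i) = 0} ≤
      Nat.card {l : Fin m → Fin r → V1 //
        (∀ i j, Unl (xF c i, l i) (xF c j, l j)) ∧
        ∀ f j, pr (l j) (fun i => gF c f i + TF d S f (xF c j i)) = 0} := by
    exact card_mono fun l hl => annL _ _ _ _ hl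
  refine Nat.le_of_mul_le_mul_right ?_ hQ0
  calc _ ≤ Nat.card {P : Grid k dg //
        Φ (pat (Sum.elim ps d.ell) fun j => (P j).1) = KR} * (4 ^ r) ^ m * Nat.card Q :=
        Nat.mul_le_mul_right _ (Nat.mul_le_mul_right _ h1)
    _ = (Nat.card {P : Grid k dg //
        Φ (pat (Sum.elim ps d.ell) fun j => (P j).1) = KR} * Nat.card Q) * (4 ^ r) ^ m := by
        ring
    _ ≤ (Nat.card {ξ // Φ ξ = KR} * (2 * Nat.card (Grid k dg))) * (4 ^ r) ^ m :=
        Nat.mul_le_mul_right _ h3
    _ = (2 * Nat.card (Grid k dg)) * (Nat.card {ξ // Φ ξ = KR} * (4 ^ r) ^ m) := by ring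
    _ ≤ (2 * Nat.card (Grid k dg)) * (Nat.card Q *
        Nat.card {l : Fin m → Fin r → V1 // ∀ ξ, ∑ i, pr (l i) (Φ ξ i) = 0}) :=
        Nat.mul_le_mul_left _ h4
    _ ≤ (2 * Nat.card (Grid k dg)) * (Nat.card Q * _) :=
        Nat.mul_le_mul_left _ (Nat.mul_le_mul_left _ h5)
    _ = _ := by ring

/-- T2 in a grid with right sides: the number of pairs (family, non-generic independent
`r`-tuple). -/
theorem T2gridR (h2 : (2 : k) ≠ 0) (d : TwData k) (r kk : ℕ) (hr : 1 ≤ r) : ∃ C : ℕ,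
    ∀ (S : Type) (_ : Fintype S) (ps : S → k[X]) (m : ℕ) (dg : Fin m → ℕ),
      Function.Injective dg → NearU (Sum.elim ps d.ell) dg →
      ∀ (rhs : (Fin r → CodeF d.h (S ⊕ Fin m)) → Fin m → Fin r → V1) (W : Finset (Fin m)),
      Nat.card {p : Grid k dg × (Fin r → CodeF d.h (S ⊕ Fin m)) //
          (∀ j i, condF d (Sum.elim ps fun j => (p.1 j).1) (p.2 i) (Sum.inr j) = rhs p.2 j i) ∧
          (¬ Dep (TF d S) (gF p.2) (xF p.2) ∧
            ∃ v : Fin r → V1, Nat.card {j : Fin m // j ∈ W ∧ xF p.2 j = v} < kk)} *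
          (4 ^ r) ^ W.card ≤
        2 * Nat.card (Grid k dg) * (4 ^ r) ^ (1 + Nat.card S + d.h) *
          (C * (W.card + 1) ^ kk * (4 ^ r - 1) ^ W.card) := by
  classical
  obtain ⟨C, hC⟩ := BJ2.T2core r kk hr
  refine ⟨C, ?_⟩
  intro S _ ps m dg hinj hU rhs W
  have h1 := double_count (A := Grid k dg) (B := Fin r → CodeF d.h (S ⊕ Fin m))
    (C := Fin m → Fin r → V1)
    (fun P c => ∀ j i, condF d (Sum.elim ps fun j => (P j).1) (c i) (Sum.inr j) = rhs c j i)
    (fun c l => (∀ i j, Unl (xF c i, l i) (xF c j, l j)) ∧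
        ∀ f j, pr (l j) (fun i => gF c f i + TF d S f (xF c j i)) = 0)
    (fun c => ¬ Dep (TF d S) (gF c) (xF c) ∧
            ∃ v : Fin r → V1, Nat.card {j : Fin m // j ∈ W ∧ xF c j = v} < kk)
    ((4 ^ r) ^ m) (2 * Nat.card (Grid k dg)) (fun c => grid_LR h2 d hinj hU c (rhs c))
  set B := C * (W.card + 1) ^ kk * (4 ^ r - 1) ^ W.card * (4 ^ r) ^ (m - W.card) with hB
  -- the number of pairs (tuple, dual vector)
  have hsymm : ∀ f w w', ee w' (TF d S f w) = ee w (TF d S f w') := by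
    intro f w w'
    rcases f with s | μ
    · exact ee_comm _ _
    · exact d.symm μ w w'
  have hnd : ∀ w, w ≠ 0 → ∃ f, ee w (TF d S f w) = 1 := by
    intro w hw
    obtain ⟨μ, hμ⟩ := d.nondeg w hw
    exact ⟨Sum.inr μ, hμ⟩
  have h3 : Nat.card {p : (Fin r → CodeF d.h (S ⊕ Fin m)) × (Fin m → Fin r → V1) //
      ((∀ i j, Unl (xF p.1 i, p.2 i) (xF p.1 j, p.2 j)) ∧
        ∀ f j, pr (p.2 j) (fun i => gF p.1 f i + TF d S f (xF p.1 j i)) = 0) ∧
      ¬ Dep (TF d S) (gF p.1) (xF p.1) ∧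
            ∃ v : Fin r → V1, Nat.card {j : Fin m // j ∈ W ∧ xF p.1 j = v} < kk} ≤
      (4 ^ r) ^ (1 + Nat.card S + d.h) * B := by
    let Z : (S ⊕ Fin d.h → Fin r → V1) → Type := fun g =>
      {z : Fin m → (Fin r → V1) × (Fin r → V1) //
        (∀ i j, Unl (z i) (z j)) ∧
        (∀ f j, pr (z j).2 (fun i => g f i + TF d S f ((z j).1 i)) = 0) ∧
        ¬ Dep (TF d S) g (fun j => (z j).1) ∧
        ∃ v : Fin r → V1, Nat.card {j : Fin m // j ∈ W ∧ (z j).1 = v} < kk}
    have hfinZ : ∀ g, Finite (Z g) := fun g => Subtype.finite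
    have hZ : ∀ g, Nat.card (Z g) ≤ B := fun g => hC (S ⊕ Fin d.h) inferInstance (TF d S)
      hsymm hnd g m W
    let Y : Type := Σ q : (Fin r → V1) × (S ⊕ Fin d.h → Fin r → V1), Z q.2
    have hY : Nat.card Y ≤ (4 ^ r) ^ (1 + Nat.card S + d.h) * B := by
      have := Fintype.ofFinite ((Fin r → V1) × (S ⊕ Fin d.h → Fin r → V1))
      have e : Nat.card Y = ∑ q : (Fin r → V1) × (S ⊕ Fin d.h → Fin r → V1), Nat.card (Z q.2) :=
        Nat.card_sigma
      rw [e]
      refine (Finset.sum_le_sum fun q _ => hZ q.2).trans ?_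
      rw [Finset.sum_const, smul_eq_mul, Finset.card_univ, ← Nat.card_eq_fintype_card,
        Nat.card_prod, card_E, Nat.card_fun, card_E, Nat.card_sum]
      simp only [Nat.card_eq_fintype_card, Fintype.card_fin]
      rw [show 1 + Fintype.card S + d.h = (Fintype.card S + d.h) + 1 by ring, pow_succ]
      apply le_of_eq
      ring
    refine le_trans ?_ hY
    have hfinY : Finite Y := inferInstanceAs (Finite (Σ q : (Fin r → V1) ×
      (S ⊕ Fin d.h → Fin r → V1), Z q.2))
    let F : {p : (Fin r → CodeF d.h (S ⊕ Fin m)) × (Fin m → Fin r → V1) //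
      ((∀ i j, Unl (xF p.1 i, p.2 i) (xF p.1 j, p.2 j)) ∧
        ∀ f j, pr (p.2 j) (fun i => gF p.1 f i + TF d S f (xF p.1 j i)) = 0) ∧
      ¬ Dep (TF d S) (gF p.1) (xF p.1) ∧
            ∃ v : Fin r → V1, Nat.card {j : Fin m // j ∈ W ∧ xF p.1 j = v} < kk} → Y := fun p =>
      (⟨(fun i => (p.1.1 i).1, gF p.1.1), ⟨fun j => (xF p.1.1 j, p.1.2 j), p.2.1.1, p.2.1.2,
        p.2.2.1, p.2.2.2⟩⟩ : Y)
    apply Nat.card_le_card_of_injective F
    rintro ⟨⟨c, l⟩, hp⟩ ⟨⟨c', l'⟩, hp'⟩ heq
    have e1 : (fun i => (c i).1, gF c) = (fun i => (c' i).1, gF c') := congrArg Sigma.fst heq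
    have e2 : (fun j => (xF c j, l j)) = (fun j => (xF c' j, l' j)) := by
      have h5 : ∀ (a b : Y), a = b → a.2.1 = b.2.1 := by
        rintro a b rfl
        rfl
      exact h5 _ _ heq
    have e3 : (fun i => (c i).1) = (fun i => (c' i).1) := congrArg Prod.fst e1
    have e4 : gF c = gF c' := congrArg Prod.snd e1
    have e5 : ∀ j, xF c j = xF c' j := fun j => congrArg Prod.fst (congrFun e2 j)
    have e6 : l = l' := funext fun j => congrArg Prod.snd (congrFun e2 j)
    have e7 : c = c' := by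
      funext i
      refine Prod.ext (congrFun e3 i) (Prod.ext ?_ ?_)
      · funext μ
        exact congrFun (congrFun e4 (Sum.inr μ)) i
      · funext a
        rcases a with s | j
        · exact congrFun (congrFun e4 (Sum.inl s)) i
        · exact congrFun (e5 j) i
    subst e7
    subst e6
    rfl
  have hW : W.card ≤ m := by
    have := W.card_le_univ
    rwa [Fintype.card_fin] at this
  have h4 : (4 ^ r) ^ m = (4 ^ r) ^ W.card * (4 ^ r) ^ (m - W.card) := by
    rw [← pow_add, Nat.add_sub_cancel' hW]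
  have hpos : 0 < (4 ^ r) ^ (m - W.card) := by positivity
  refine Nat.le_of_mul_le_mul_right ?_ hpos
  refine le_trans (le_of_eq ?_) ((h1.trans (Nat.mul_le_mul_left _ h3)).trans (le_of_eq ?_))
  · rw [h4]
    ring
  · rw [hB]
    ring

end

end Pool.Agent.SmH
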