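import Pool.Agent.Lib.SmH.J.OneGrid

/-!
HEIGHTS (MP_48b749_nt), block J+: almost all monic squarefree polynomials are typical in the strong
sense (`TypH`).
-/

set_option autoImplicit false

open Polynomial Pool.Agent.BSDP.R

namespace Pool.Agent.SmH

open Pool.Agent.Sm Pool.Agent.Sm.BJ
open Pool.Agent.SmK (DD IsGrid Pts ev xs Nice Dist)

theorem TypH.mono {k : Type} [Field k] {d : TwData k} {D : k[X]} {R kk C N0 : ℕ}
    (h : TypH d D R (kk + 1) C N0) : TypH d D R kk C N0 :=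
  ⟨⟨h.typ.small, fun r c hc hI w => (Nat.le_succ kk).trans (h.typ.generic r c hc hI w),
    h.typ.distinct, h.typ.few, h.typ.odd⟩,
    fun r c w hc hI hw v v' => (Nat.le_succ kk).trans (h.genericH r c w hc hI hw v v'),
    fun r c hc hI v => (Nat.le_succ kk).trans (h.genericOdd r c hc hI v)⟩

section
variable {k : Type} [Field k] [Finite k]

theorem card_sub_le {A : Type} [Finite A] (p q r s : A → Prop)
    (h : ∀ a, p a → q a ∨ r a ∨ s a) :
    Nat.card {a // p a} ≤ Nat.card {a // q a} + (Nat.card {a // r a} + Nat.card {a // s a}) :=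
  (card_mono h).trans ((card_or _ _).trans (Nat.add_le_add_left (card_or _ _) _))

open Classical in
theorem typH_extra (h2 : (2 : k) ≠ 0) (d : TwData k) (R kk C : ℕ) (hkk : 1 ≤ kk) (ε : ℝ)
    (hε : 0 < ε) : ∃ n0 : ℕ, ∀ n : ℕ, n0 ≤ n →
      (Nat.card {D : k[X] // D ∈ DD (badSet d) n ∧ (Typ d D R kk C ⌊Real.log n ^ 3⌋₊ ∧
        ¬ TypH d D R kk C ⌊Real.log n ^ 3⌋₊)} : ℝ) ≤ ε * (DD (badSet d) n).card := by
  obtain ⟨n1, hn1⟩ := pts_finalH h2 d R kk C hkk (ε / 3) (by positivity)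
  have hq3 := three_le_card h2
  obtain ⟨n2, hn2⟩ := SmK.anatomy hq3 (badSet d) (badSet_irr d) (2 ^ C) (by positivity)
    (ε / 3) (by positivity)
  obtain ⟨n4, hn4⟩ := manyOdd hq3 (badSet d) (badSet_irr d) (ε / 3) (by positivity)
  obtain ⟨n3, hn3⟩ := window 0 0 (∑ μ, (d.ell μ).natDegree + 1)
  refine ⟨n1 + n2 + n3 + n4, fun n hn => ?_⟩
  have hA := hn1 n (by omega)
  have hB := hn2 n (by omega)
  have hO := hn4 n (by omega)
  have hN := (hn3 n (by omega)).1
  set N0 := ⌊Real.log n ^ 3⌋₊ with hN0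
  set BB := badSet d with hBB
  set X := DD BB n with hX
  have hell : ∀ P ∈ BB, P.natDegree < N0 := by
    intro P hP
    obtain ⟨μ, rfl⟩ := (mem_badSet d).1 hP
    have h3 := Finset.single_le_sum (f := fun μ => (d.ell μ).natDegree)
      (fun i _ => Nat.zero_le _) (Finset.mem_univ μ)
    have h4 : (d.ell μ).natDegree + 1 + 1 ≤ N0 := by
      apply Nat.le_floor
      push_cast at hN ⊢
      have h5 : ((d.ell μ).natDegree : ℝ) ≤ ∑ μ, ((d.ell μ).natDegree : ℝ) := by
        exact_mod_cast h3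
      linarith
    omega
  have hfinI : ∀ t, Fintype (Irr k t) := fun t => Fintype.ofFinite _
  have hnice : ∀ D : k[X], (Nice (2 ^ C) N0 n D ∧ ManyOdd N0 n D) → Dist N0 D :=
    fun D h => h.1.distinct
  -- the number of all points
  have hall : ∑ g ∈ SmK.Grid BB N0 n, (Nat.card (Pts k g.2) : ℝ) ≤ X.card := by
    have h3 := SmK.grid_sum BB (badSet_irr d) N0 n hell (fun _ => (1 : ℝ))
    have h4 : ∑ g ∈ SmK.Grid BB N0 n, (Nat.card (Pts k g.2) : ℝ) =
        ∑ g ∈ SmK.Grid BB N0 n, ∑ x : Pts k g.2, (1 : ℝ) := by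
      refine Finset.sum_congr rfl fun g _ => ?_
      rw [Finset.sum_const, Finset.card_univ, nsmul_eq_mul, mul_one, Nat.card_eq_fintype_card]
    rw [h4, ← h3, Finset.sum_const, nsmul_eq_mul, mul_one]
    exact_mod_cast Finset.card_filter_le _ _
  -- sums over nice D
  have hsplit : ∀ (F : k[X] → ℝ), (∀ D, 0 ≤ F D) →
      ∑ D ∈ X with (Nice (2 ^ C) N0 n D ∧ ManyOdd N0 n D), F D =
      ∑ g ∈ SmK.Grid BB N0 n, ∑ x : Pts k g.2,
        if (Nice (2 ^ C) N0 n (ev g x) ∧ ManyOdd N0 n (ev g x)) then F (ev g x) else 0 := by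
    intro F _
    rw [← SmK.grid_sum BB (badSet_irr d) N0 n hell
      (fun D => if (Nice (2 ^ C) N0 n D ∧ ManyOdd N0 n D) then F D else 0),
      ← Finset.sum_filter, Finset.filter_filter]
    refine Finset.sum_congr ?_ fun _ _ => rfl
    ext D
    simp only [Finset.mem_filter]
    constructor
    · rintro ⟨h, h'⟩
      exact ⟨h, hnice D h', h'⟩
    · rintro ⟨h, _, h'⟩
      exact ⟨h, h'⟩
  have hBnot : ((X.filter fun D => ¬ Nice (2 ^ C) N0 n D).card : ℝ) ≤ ε / 3 * X.card := by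
    have e1 := natCard_DD BB n (fun D => ¬ Nice (2 ^ C) N0 n D)
    rw [← hX] at e1
    rw [← e1]
    exact hB
  have hOnot : ((X.filter fun D => ¬ ManyOdd N0 n D).card : ℝ) ≤ ε / 3 * X.card := by
    have e1 := natCard_DD BB n (fun D => ¬ ManyOdd N0 n D)
    rw [← hX] at e1
    rw [← e1]
    exact hO
  rw [natCard_DD, ← hX]
  set Bd : k[X] → Prop := fun D => Typ d D R kk C N0 ∧ ¬ TypH d D R kk C N0 with hBd
  have h3 : ((X.filter Bd).card : ℝ) ≤
      (X.filter fun D => ¬ Nice (2 ^ C) N0 n D).card +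
      (X.filter fun D => ¬ ManyOdd N0 n D).card +
      ∑ D ∈ X with (Nice (2 ^ C) N0 n D ∧ ManyOdd N0 n D), (if Bd D then (1 : ℝ) else 0) := by
    have h4 : ∑ D ∈ X with (Nice (2 ^ C) N0 n D ∧ ManyOdd N0 n D),
        (if Bd D then (1 : ℝ) else 0) =
        ((X.filter fun D => (Nice (2 ^ C) N0 n D ∧ ManyOdd N0 n D) ∧ Bd D).card : ℝ) := by
      rw [← Finset.filter_filter (fun D => Nice (2 ^ C) N0 n D ∧ ManyOdd N0 n D) Bd,
        Finset.card_filter]
      push_cast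
      rfl
    rw [h4]
    have h5 : X.filter Bd ⊆
        ((X.filter fun D => ¬ Nice (2 ^ C) N0 n D) ∪
        (X.filter fun D => ¬ ManyOdd N0 n D)) ∪
        (X.filter fun D => (Nice (2 ^ C) N0 n D ∧ ManyOdd N0 n D) ∧ Bd D) := by
      intro D hD
      rw [Finset.mem_filter] at hD
      rw [Finset.mem_union, Finset.mem_union, Finset.mem_filter, Finset.mem_filter,
        Finset.mem_filter]
      by_cases h : Nice (2 ^ C) N0 n D
      · by_cases h' : ManyOdd N0 n D
        · exact Or.inr ⟨hD.1, ⟨h, h'⟩, hD.2⟩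
        · exact Or.inl (Or.inr ⟨hD.1, h'⟩)
      · exact Or.inl (Or.inl ⟨hD.1, h⟩)
    have h6 := (Finset.card_le_card h5).trans ((Finset.card_union_le _ _).trans
      (Nat.add_le_add_right (Finset.card_union_le _ _) _))
    exact_mod_cast h6
  refine h3.trans ?_
  rw [hsplit _ (fun D => by split_ifs <;> norm_num)]
  have h7 : ∑ g ∈ SmK.Grid BB N0 n, ∑ x : Pts k g.2,
      (if (Nice (2 ^ C) N0 n (ev g x) ∧ ManyOdd N0 n (ev g x)) then
        (if Bd (ev g x) then (1 : ℝ) else 0) else 0) ≤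
      ∑ g ∈ SmK.Grid BB N0 n, ε / 3 * (Nat.card (Pts k g.2) : ℝ) := by
    apply Finset.sum_le_sum
    intro g hg
    by_cases hx : ∃ x : Pts k g.2, Nice (2 ^ C) N0 n (ev g x) ∧ ManyOdd N0 n (ev g x)
    · refine le_trans ?_ (hA g (SmK.mem_Grid.1 hg) hx)
      have h8 : (Nat.card {x : Pts k g.2 // Typ d (ev g x) R kk C N0 ∧
          ¬ TypH d (ev g x) R kk C N0} : ℝ) =
          ∑ x : Pts k g.2, (if Bd (ev g x) then (1 : ℝ) else 0) := by
        rw [Nat.card_eq_fintype_card, Fintype.card_subtype, Finset.card_eq_sum_ones,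
          Finset.sum_filter]
        push_cast
        rfl
      rw [h8]
      apply Finset.sum_le_sum
      intro x _
      split_ifs <;> norm_num
    · push Not at hx
      rw [Finset.sum_eq_zero fun x _ => by
        rw [if_neg (fun h => hx x h.1 h.2)]]
      positivity
  rw [← Finset.mul_sum] at h7
  have h8 : ε / 3 * ∑ g ∈ SmK.Grid BB N0 n, (Nat.card (Pts k g.2) : ℝ) ≤ ε / 3 * X.card :=
    mul_le_mul_of_nonneg_left hall (by positivity)
  linarith

open Classical in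
/-- **Theorem JK for HEIGHTS.** Almost all monic squarefree `D` prime to the bad primes satisfy
`TypH`; the average of the order of the explicit Selmer group over them is bounded by `C0`
independently of `ε, R, kk, C`. -/
theorem JKH (h2 : (2 : k) ≠ 0) (d : TwData k) :
    ∃ C0 : ℕ, ∀ ε : ℝ, 0 < ε → ∃ R : ℕ, ∀ kk C : ℕ, ∃ n0 : ℕ, ∀ n : ℕ, n0 ≤ n →
      (Nat.card {D : k[X] // D ∈ DD (badSet d) n ∧
        ¬ TypH d D R kk C ⌊Real.log n ^ 3⌋₊} : ℝ) ≤ ε * (DD (badSet d) n).card ∧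
      ∑ D ∈ DD (badSet d) n with TypH d D R kk C ⌊Real.log n ^ 3⌋₊,
        (Nat.card (Selp d D) : ℝ) ≤ C0 * (DD (badSet d) n).card := by
  obtain ⟨C0, hC0⟩ := JK h2 d
  refine ⟨C0, fun ε hε => ?_⟩
  obtain ⟨R, hR⟩ := hC0 (ε / 2) (by positivity)
  refine ⟨R, fun kk C => ?_⟩
  obtain ⟨n1, hn1⟩ := hR (kk + 1) C
  obtain ⟨n2, hn2⟩ := hR kk C
  obtain ⟨n3, hn3⟩ := typH_extra h2 d R (kk + 1) C (by omega) (ε / 2) (by positivity)
  refine ⟨n1 + n2 + n3, fun n hn => ?_⟩
  have hA := (hn1 n (by omega)).1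
  have hB := (hn2 n (by omega)).2
  have hE := hn3 n (by omega)
  constructor
  · rw [natCard_DD] at hA hE ⊢
    have h5 : (DD (badSet d) n).filter (fun D => ¬ TypH d D R kk C ⌊Real.log n ^ 3⌋₊) ⊆
        ((DD (badSet d) n).filter fun D => ¬ Typ d D R (kk + 1) C ⌊Real.log n ^ 3⌋₊) ∪
        ((DD (badSet d) n).filter fun D => Typ d D R (kk + 1) C ⌊Real.log n ^ 3⌋₊ ∧
          ¬ TypH d D R (kk + 1) C ⌊Real.log n ^ 3⌋₊) := by
      intro D hD
      rw [Finset.mem_filter] at hD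
      rw [Finset.mem_union, Finset.mem_filter, Finset.mem_filter]
      by_cases h : Typ d D R (kk + 1) C ⌊Real.log n ^ 3⌋₊
      · exact Or.inr ⟨hD.1, h, fun h' => hD.2 h'.mono⟩
      · exact Or.inl ⟨hD.1, h⟩
    have h6 := (Finset.card_le_card h5).trans (Finset.card_union_le _ _)
    have h7 : (((DD (badSet d) n).filter
        (fun D => ¬ TypH d D R kk C ⌊Real.log n ^ 3⌋₊)).card : ℝ) ≤
        ((DD (badSet d) n).filter fun D => ¬ Typ d D R (kk + 1) C ⌊Real.log n ^ 3⌋₊).card +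
        ((DD (badSet d) n).filter fun D => Typ d D R (kk + 1) C ⌊Real.log n ^ 3⌋₊ ∧
          ¬ TypH d D R (kk + 1) C ⌊Real.log n ^ 3⌋₊).card := by
      exact_mod_cast h6
    linarith
  · refine le_trans ?_ hB
    apply Finset.sum_le_sum_of_subset_of_nonneg
    · intro D hD
      rw [Finset.mem_filter] at hD ⊢
      exact ⟨hD.1, hD.2.typ⟩
    · intro D _ _
      exact Nat.cast_nonneg _

end

end Pool.Agent.SmH
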