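import Pool.Agent.Lib.SmK.Anat

/-!
HEIGHTS (MP_48b749_nt), block J+: almost all monic squarefree polynomials have many large prime
factors of odd degree.
-/

set_option autoImplicit false

open Polynomial Finset

namespace Pool.Agent.SmH

open Pool.Agent.BSDP.R (primesOf)
open Pool.Agent.SmK

variable {k : Type} [Field k]

/-- many large prime factors of odd degree -/
def ManyOdd (N0 n : ℕ) (D : k[X]) : Prop :=
  Real.log n / 16 ≤ #{P ∈ primesOf D | N0 ≤ P.natDegree ∧ Odd P.natDegree}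

theorem manyOdd [Finite k] (h3 : 3 ≤ Nat.card k) (B : Finset k[X])
    (hB : ∀ P ∈ B, P.Monic ∧ Irreducible P) (ε : ℝ) (hε : 0 < ε) : ∃ n0 : ℕ, ∀ n : ℕ, n0 ≤ n →
      (Nat.card {D : k[X] // D ∈ DD B n ∧ ¬ ManyOdd ⌊Real.log n ^ 3⌋₊ n D} : ℝ) ≤
        ε * #(DD B n) := by
  classical
  obtain ⟨c, hc, n1, hn1⟩ := card_DD_ge B hB h3
  set η : ℝ := ε * c with hη
  have hη0 : 0 < η := by positivity
  obtain ⟨n3, hn3⟩ := asy 2 (by norm_num) η hη0
  refine ⟨max n1 (max n3 2), fun n hn => ?_⟩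
  have hn1' := hn1 n (by omega)
  obtain ⟨a1, _, _, _, b5, b6, b7, a8⟩ := hn3 n (by omega)
  set N0 := ⌊Real.log n ^ 3⌋₊ with hN0
  have hq := q_pos (k := k)
  set Q : ℝ := (Nat.card k : ℝ) ^ n with hQ
  have hQ0 : 0 < Q := by positivity
  have hirr : ∀ E : Finset ℕ, ∀ P ∈ IrrE k E, P.Monic ∧ Irreducible P := by
    intro E P hP
    rw [mem_IrrE] at hP
    exact ⟨hP.1, hP.2.1⟩
  set E5 : Finset k[X] := {f ∈ Mon k n | 2 * (om (IrrE k {d ∈ Icc N0 (n / 2) | Odd d}) f : ℝ) ≤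
    ∑ P ∈ IrrE k {d ∈ Icc N0 (n / 2) | Odd d}, wt P} with hE5
  have hdeg : ∀ P ∈ IrrE k {d ∈ Icc N0 (n / 2) | Odd d}, P.natDegree ≤ n := by
    intro P hP
    rw [mem_IrrE, mem_filter, mem_Icc] at hP
    omega
  have l5 : Real.log n / 8 ≤ ∑ P ∈ IrrE k {d ∈ Icc N0 (n / 2) | Odd d}, wt P := by
    have h1 := le_sum_IrrE h3 2 1 N0 (n / 2) (by norm_num) a1 b5 {d ∈ Icc N0 (n / 2) | Odd d}
      (fun d h1 h2 h4 => mem_filter.2 ⟨mem_Icc.2 ⟨h1, h2⟩, Nat.odd_iff.2 h4⟩)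
    refine le_trans ?_ h1
    push_cast at b6 ⊢
    rw [div_le_div_iff₀ (by norm_num) (by norm_num)]
    linarith
  have c5 : (#E5 : ℝ) ≤ η * Q := by
    have h1 := card_om_le (IrrE k {d ∈ Icc N0 (n / 2) | Odd d}) (hirr _) n hdeg
    have h2 : Real.log n / 8 * #E5 ≤ 4 * Q :=
      (mul_le_mul_of_nonneg_right l5 (Nat.cast_nonneg _)).trans h1
    push_cast at b7
    have h4 : (#E5 : ℝ) * Real.log n ≤ (η * Q) * Real.log n := by nlinarith
    exact le_of_mul_le_mul_right h4 (by linarith)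
  have hsub : ∀ D : k[X], (D ∈ DD B n ∧ ¬ ManyOdd N0 n D) → D ∈ E5 := by
    rintro D ⟨hD, hnice⟩
    by_contra d5
    have hDM : D ∈ Mon k n := DD_subset B n hD
    have hDm := mem_Mon.1 hDM
    have hD0 : D ≠ 0 := hDm.1.ne_zero
    apply hnice
    rw [hE5, mem_filter, not_and, not_le] at d5
    have h1 := d5 hDM
    rw [om_IrrE hD0] at h1
    have h2 : {P ∈ primesOf D | P.natDegree ∈ ({d ∈ Icc N0 (n / 2) | Odd d} : Finset ℕ)} ⊆
        {P ∈ primesOf D | N0 ≤ P.natDegree ∧ Odd P.natDegree} := by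
      intro P hP
      rw [mem_filter, mem_filter, mem_Icc] at hP
      rw [mem_filter]
      exact ⟨hP.1, hP.2.1.1, hP.2.2⟩
    have h4 : (#{P ∈ primesOf D | P.natDegree ∈ ({d ∈ Icc N0 (n / 2) | Odd d} : Finset ℕ)} :
        ℝ) ≤ #{P ∈ primesOf D | N0 ≤ P.natDegree ∧ Odd P.natDegree} := by
      exact_mod_cast card_le_card h2
    unfold ManyOdd
    linarith
  have hcard : Nat.card {D : k[X] // D ∈ DD B n ∧ ¬ ManyOdd N0 n D} ≤ #E5 := by
    have h1 : Nat.card {D : k[X] // D ∈ E5} = #E5 := by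
      rw [Nat.card_eq_fintype_card, Fintype.card_coe]
    rw [← h1]
    exact Nat.card_le_card_of_injective (fun D => ⟨D.1, hsub D.1 D.2⟩) (fun D D' h => by
      have h2 := congrArg Subtype.val h
      exact Subtype.ext h2)
  calc (Nat.card {D : k[X] // D ∈ DD B n ∧ ¬ ManyOdd N0 n D} : ℝ)
      ≤ #E5 := by exact_mod_cast hcard
    _ ≤ η * Q := c5
    _ = ε * (c * Q) := by rw [hη]; ring
    _ ≤ _ := mul_le_mul_of_nonneg_left hn1' hε.le

end Pool.Agent.SmH
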