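import Pool.Agent.Lib.Sm.J11
import Pool.Agent.Lib.SmH.J.Bad
import Pool.Agent.Lib.SmH.J.Odd

/-!
HEIGHTS (MP_48b749_nt), block J+: one grid.
-/

set_option autoImplicit false

open Polynomial Pool.Agent.BSDP.R

namespace Pool.Agent.SmH

open Pool.Agent.Sm Pool.Agent.Sm.BJ
open Pool.Agent.SmK (DD IsGrid Pts ev xs Nice Dist)

section
variable {k : Type} [Field k]

theorem grid_finalH [Finite k] (h2 : (2 : k) ≠ 0) (d : TwData k) (R kk C : ℕ) (hkk : 1 ≤ kk)
    (ε : ℝ) (hε : 0 < ε) : ∃ n0 : ℕ, ∀ n : ℕ, n0 ≤ n → ∀ (Ds : k[X]) (m : ℕ) (dg : Fin m → ℕ),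
      Ds.Monic → (∀ μ, ¬ d.ell μ ∣ Ds) →
      (∀ Q ∈ primesOf Ds, Q.natDegree < ⌊Real.log n ^ 3⌋₊) → StrictMono dg →
      (∀ j, ⌊Real.log n ^ 3⌋₊ ≤ dg j) → Ds.natDegree + ∑ j, dg j = n →
      (((primesOf Ds).card + m : ℕ) : ℝ) ≤ 2 * Real.log n →
      ((primesOf Ds).card : ℝ) ≤ 6 * Real.log (Real.log n) →
      Real.log n / (8 * ((2 ^ C : ℕ) : ℝ)) ≤ (Finset.univ.filter fun j => 2 ^ C ∣ dg j).card →
      Real.log n / 16 ≤ (Finset.univ.filter fun j => Odd (dg j)).card →
      (Nat.card {P : Grid k dg // Typ d (Ds * ∏ j, (P j).1) R kk C ⌊Real.log n ^ 3⌋₊ ∧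
        ¬ TypH d (Ds * ∏ j, (P j).1) R kk C ⌊Real.log n ^ 3⌋₊} : ℝ) ≤
        ε * Nat.card (Grid k dg) := by
  classical
  obtain ⟨K, hK⟩ := grid_badH h2 d R kk ε hε
  obtain ⟨c, hc, hNU⟩ := nearU_of
  set B := ∑ μ, (d.ell μ).natDegree with hB
  obtain ⟨n1, hn1⟩ := numeric d.h B c
  obtain ⟨n2, hn2⟩ := window K (2 ^ C - 1) (B + 1)
  obtain ⟨n3, hn3⟩ := window K 1 (B + 1)
  refine ⟨n1 + n2 + n3, ?_⟩
  intro n hn Ds m dg hDsm hell hDsN hdg hdgN hsum hfew hfewS hmany hmanyO
  obtain ⟨hA, hwin⟩ := hn2 n (by omega)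
  obtain ⟨_, hwin'⟩ := hn3 n (by omega)
  set N0 := ⌊Real.log n ^ 3⌋₊ with hN0
  set S := PD Ds with hS
  have hfinS := finite_PD Ds
  have hDs0 : Ds ≠ 0 := hDsm.ne_zero
  have hcardS : Nat.card S = (primesOf Ds).card := by
    rw [hS, Nat.card_eq_fintype_card]
    exact Fintype.card_coe _
  -- size of N0
  have hq3 : (3 : ℝ) ≤ Nat.card k := by
    have hk := Fintype.ofFinite k
    have h3 : 1 < Nat.card k := Finite.one_lt_card
    have h4 : Nat.card k ≠ 2 := by
      intro h
      apply h2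
      have h5 : ((Nat.card k : ℕ) : k) = 0 := by
        rw [Nat.card_eq_fintype_card]
        exact FiniteField.cast_card_eq_zero k
      rw [h] at h5
      exact_mod_cast h5
    exact_mod_cast (by omega : 3 ≤ Nat.card k)
  have hBN : B < N0 := by
    have h3 : (B : ℝ) + 1 + 1 ≤ Real.log n ^ 3 := by
      push_cast at hA
      linarith
    have h4 : B + 2 ≤ N0 := by
      apply Nat.le_floor
      push_cast
      linarith
    omega
  have hellN : ∀ μ, (d.ell μ).natDegree < N0 := by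
    intro μ
    have := Finset.single_le_sum (f := fun μ => (d.ell μ).natDegree) (fun i _ => Nat.zero_le _)
      (Finset.mem_univ μ)
    exact lt_of_le_of_lt this hBN
  -- the fixed primes
  set f : S ⊕ Fin d.h → k[X] := Sum.elim Subtype.val d.ell with hf
  have hmemS : ∀ s : S, s.1.Monic ∧ Irreducible s.1 ∧ s.1 ∣ Ds := fun s =>
    (mem_primesOf hDs0).1 s.2
  have hfinj : Function.Injective f := by
    intro a b hab
    rcases a with s | μ <;> rcases b with t | ν
    · exact congrArg Sum.inl (Subtype.ext hab)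
    · exfalso
      apply hell ν
      have h3 : s.1 = d.ell ν := hab
      rw [← h3]
      exact (hmemS s).2.2
    · exfalso
      apply hell μ
      have h3 : d.ell μ = t.1 := hab
      rw [h3]
      exact (hmemS t).2.2
    · exact congrArg Sum.inr (d.ell_inj hab)
  have hfm : ∀ x, (f x).Monic := by
    intro x
    rcases x with s | μ
    · exact (hmemS s).1
    · exact d.ell_monic μ
  have hfi : ∀ x, Irreducible (f x) := by
    intro x
    rcases x with s | μ
    · exact (hmemS s).2.1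
    · exact d.ell_irr μ
  have hfN : ∀ x, (f x).natDegree < N0 := by
    intro x
    rcases x with s | μ
    · exact hDsN s.1 s.2
    · exact hellN μ
  have hfsum : ∑ᶠ x, (f x).natDegree + ∑ j, dg j ≤ n + B := by
    rw [finsum_eq_sum_of_fintype, Fintype.sum_sum_type]
    have e1 : ∑ s : S, (f (Sum.inl s)).natDegree = ∑ Q ∈ primesOf Ds, Q.natDegree := by
      rw [← Finset.sum_coe_sort (primesOf Ds) (fun Q => Q.natDegree)]
      exact Fintype.sum_equiv (Equiv.refl _) _ _ (fun _ => rfl)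
    have e2 : ∑ μ : Fin d.h, (f (Sum.inr μ)).natDegree = B := rfl
    have e3 := sum_deg_primesOf hDs0
    rw [e1, e2]
    omega
  have hNear : NearU f dg := by
    apply hNU k inferInstance inferInstance h2 (S ⊕ Fin d.h) inferInstance f hfinj hfm hfi
      m (n + B) N0 dg hdg hdgN hfN hfsum
    have h3 := hn1 n (by omega) (Nat.card k) hq3 m (Nat.card S) (by
      rw [hcardS]
      exact hfew)
    have e1 : Nat.card (S ⊕ Fin d.h) + m = Nat.card S + d.h + m := by
      rw [Nat.card_sum, Nat.card_eq_fintype_card (α := Fin d.h), Fintype.card_fin]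
    rw [e1]
    exact h3
  set W : Finset (Fin m) := Finset.univ.filter fun j => 2 ^ C ∣ dg j with hW
  have hKW : K * (1 + Nat.card S) ≤ W.card := by
    have e1 : ((2 ^ C - 1 : ℕ) : ℝ) + 1 = ((2 ^ C : ℕ) : ℝ) := by
      have : 1 ≤ 2 ^ C := Nat.one_le_two_pow
      rw [Nat.cast_sub this]
      push_cast
      ring
    rw [e1] at hwin
    have h3 : (K : ℝ) * (1 + Nat.card S) ≤ W.card := by
      refine le_trans ?_ (hwin.trans hmany)
      apply mul_le_mul_of_nonneg_left _ (Nat.cast_nonneg _)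
      rw [hcardS]
      linarith
    exact_mod_cast h3
  set W' : Finset (Fin m) := Finset.univ.filter fun j => Odd (dg j) with hW'
  have hKW' : K * (1 + Nat.card S) ≤ W'.card := by
    have h3 : (K : ℝ) * (1 + Nat.card S) ≤ W'.card := by
      refine le_trans ?_ ((hwin'.trans (le_of_eq (by norm_num))).trans hmanyO)
      apply mul_le_mul_of_nonneg_left _ (Nat.cast_nonneg _)
      rw [hcardS]
      linarith
    exact_mod_cast h3
  have hne : ∀ (s : S) j, s.1.natDegree ≠ dg j := by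
    intro s j h
    have h3 := hDsN s.1 s.2
    have h4 := hdgN j
    omega
  obtain ⟨hG2, hG3⟩ := hK S inferInstance Subtype.val m dg hdg.injective hNear W W' hKW hKW'
  -- the equivalences
  have hPinj : ∀ P : Grid k dg, Function.Injective fun j => (P j).1 := by
    intro P a b hab
    apply hdg.injective
    have ha := (P a).2.2.2
    have hb := (P b).2.2.2
    rw [← ha, ← hb]
    exact congrArg natDegree hab
  have hPnd : ∀ (P : Grid k dg) j, ¬ (P j).1 ∣ Ds := by
    intro P j h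
    have h3 := hDsN (P j).1 ((mem_primesOf hDs0).2 ⟨(P j).2.1, (P j).2.2.1, h⟩)
    rw [(P j).2.2.2] at h3
    have h4 := hdgN j
    omega
  have hequiv : ∀ P : Grid k dg, ∃ e : PD (Ds * ∏ j, (P j).1) ≃ S ⊕ Fin m,
      ∀ a, (e.symm a).1 = Sum.elim Subtype.val (fun j => (P j).1) a := fun P =>
    exists_equiv hDs0 (fun j => (P j).2.1) (fun j => (P j).2.2.1) (hPinj P) (hPnd P)
  refine le_trans ?_ hG3
  have h3 : Nat.card {P : Grid k dg // Typ d (Ds * ∏ j, (P j).1) R kk C N0 ∧
        ¬ TypH d (Ds * ∏ j, (P j).1) R kk C N0} ≤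
      Nat.card {P : Grid k dg //
        (∃ r, 1 ≤ r ∧ r ≤ R ∧ BadT2 (S := S) d Subtype.val (fun j => (P j).1) W' kk r) ∨
        ∃ r, r + 1 ≤ R ∧ BadTH (S := S) d Subtype.val (fun j => (P j).1) W kk r} := by
    apply card_mono
    rintro P ⟨hPt, hP⟩
    by_contra hcon
    push Not at hcon
    apply hP
    obtain ⟨e, he⟩ := hequiv P
    have hdeg : ∀ j, (P j).1.natDegree = dg j := fun j => (P j).2.2.2
    have hprod : (∏ j, (P j).1).Monic := monic_prod_of_monic _ _ fun j _ => (P j).2.1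
    have hD0 : Ds * ∏ j, (P j).1 ≠ 0 := (hDsm.mul hprod).ne_zero
    exact typH_of_family h2 hD0 e he hkk (fun j => by rw [hdeg]; exact hdgN j) W
      (fun j hj => by rw [hdeg]; exact (Finset.mem_filter.1 hj).2) W'
      (fun j hj => by rw [hdeg]; exact (Finset.mem_filter.1 hj).2) hG2 hPt hcon.1 hcon.2
  exact_mod_cast h3

end

section
variable {k : Type} [Field k] [Finite k]

theorem pts_finalH (h2 : (2 : k) ≠ 0) (d : TwData k) (R kk C : ℕ) (hkk : 1 ≤ kk)
    (ε : ℝ) (hε : 0 < ε) : ∃ n0 : ℕ, ∀ n : ℕ, n0 ≤ n → ∀ g : k[X] × Finset ℕ,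
      IsGrid (badSet d) ⌊Real.log n ^ 3⌋₊ n g →
      (∃ x : Pts k g.2, Nice (2 ^ C) ⌊Real.log n ^ 3⌋₊ n (ev g x) ∧
        ManyOdd ⌊Real.log n ^ 3⌋₊ n (ev g x)) →
      (Nat.card {x : Pts k g.2 // Typ d (ev g x) R kk C ⌊Real.log n ^ 3⌋₊ ∧
        ¬ TypH d (ev g x) R kk C ⌊Real.log n ^ 3⌋₊} : ℝ) ≤ ε * Nat.card (Pts k g.2) := by
  classical
  obtain ⟨n0, hn0⟩ := grid_finalH h2 d R kk C hkk ε hε
  refine ⟨n0, fun n hn => ?_⟩
  rintro ⟨Ds, T⟩ hg ⟨x0, hx0, hxo⟩
  set N0 := ⌊Real.log n ^ 3⌋₊ with hN0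
  have hdisj := (SmK.ev_eq hg x0).1
  have hpo := SmK.primesOf_ev hg x0
  have hcx := SmK.card_xs x0
  -- the image of the grid
  have hcard : Nat.card (Pts k T) = Nat.card (Grid k (dgT T)) := Nat.card_congr (ePts k T)
  have hdegx : ∀ t : T, ((x0 t).1).natDegree = t := fun t => (x0 t).2.2.2
  have hcardD : (primesOf (ev (Ds, T) x0)).card = (primesOf Ds).card + T.card := by
    rw [hpo, Finset.card_union_of_disjoint hdisj, hcx]
  have hfewS : ((primesOf Ds).card : ℝ) ≤ 6 * Real.log (Real.log n) := by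
    refine le_trans ?_ hx0.fewSmall
    have h3 : primesOf Ds ⊆ {P ∈ primesOf (ev (Ds, T) x0) | P.natDegree < N0} := by
      intro P hP
      rw [Finset.mem_filter, hpo]
      exact ⟨Finset.mem_union_left _ hP, hg.small P hP⟩
    exact_mod_cast Finset.card_le_card h3
  have hmany : Real.log n / (8 * ((2 ^ C : ℕ) : ℝ)) ≤
      (Finset.univ.filter fun j => 2 ^ C ∣ dgT T j).card := by
    refine hx0.many.trans ?_
    have h3 : {P ∈ primesOf (ev (Ds, T) x0) | N0 ≤ P.natDegree ∧ 2 ^ C ∣ P.natDegree} ⊆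
        (Finset.univ.filter fun j => 2 ^ C ∣ dgT T j).image fun j => (x0 (sg T j)).1 := by
      intro P hP
      rw [Finset.mem_filter, hpo, Finset.mem_union] at hP
      rcases hP.1 with h | h
      · have := hg.small P h
        have := hP.2.1
        omega
      · obtain ⟨t, rfl⟩ := (SmK.mem_xs x0).1 h
        rw [Finset.mem_image]
        refine ⟨(sg T).symm t, ?_, ?_⟩
        · rw [Finset.mem_filter]
          refine ⟨Finset.mem_univ _, ?_⟩
          unfold dgT
          rw [Equiv.apply_symm_apply, ← hdegx t]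
          exact hP.2.2
        · rw [Equiv.apply_symm_apply]
    exact_mod_cast (Finset.card_le_card h3).trans Finset.card_image_le
  have hmanyO : Real.log n / 16 ≤ (Finset.univ.filter fun j => Odd (dgT T j)).card := by
    refine le_trans hxo ?_
    have h3 : {P ∈ primesOf (ev (Ds, T) x0) | N0 ≤ P.natDegree ∧ Odd P.natDegree} ⊆
        (Finset.univ.filter fun j => Odd (dgT T j)).image fun j => (x0 (sg T j)).1 := by
      intro P hP
      rw [Finset.mem_filter, hpo, Finset.mem_union] at hP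
      rcases hP.1 with h | h
      · have := hg.small P h
        have := hP.2.1
        omega
      · obtain ⟨t, rfl⟩ := (SmK.mem_xs x0).1 h
        rw [Finset.mem_image]
        refine ⟨(sg T).symm t, ?_, ?_⟩
        · rw [Finset.mem_filter]
          refine ⟨Finset.mem_univ _, ?_⟩
          unfold dgT
          rw [Equiv.apply_symm_apply, ← hdegx t]
          exact hP.2.2
        · rw [Equiv.apply_symm_apply]
    exact_mod_cast (Finset.card_le_card h3).trans Finset.card_image_le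
  have hsumT : ∑ j, dgT T j = ∑ t ∈ T, t := by
    unfold dgT
    rw [Equiv.sum_comp (sg T) (fun t : T => (t : ℕ))]
    exact Finset.sum_coe_sort T (fun t => t)
  have hA := hn0 n hn Ds T.card (dgT T) hg.monic
    (fun μ => hg.notdvd _ ((mem_badSet d).2 ⟨μ, rfl⟩))
    hg.small (dgT_strictMono T) (fun j => hg.large _ (sg T j).2)
    (by rw [hsumT]; exact hg.deg)
    (by
      have h3 := hx0.few
      rw [hcardD] at h3
      exact h3)
    hfewS hmany hmanyO
  rw [hcard]
  refine le_trans (le_of_eq ?_) hA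
  congr 1
  apply Nat.card_congr
  refine (ePts k T).subtypeEquiv fun x => ?_
  rw [ev_ePts]

end

end Pool.Agent.SmH
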